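import Mathlib

set_option autoImplicit false

namespace Pool.Agent.Results.MP_6f7bab_an.Yes

open Set Filter PiNat

/-- the `t`-th power of the shift -/
def shift {A : Type} (t : ℕ) (x : ℕ → A) : ℕ → A := fun n => x (n + t)

/-- `D(x, y) = d(x_Δ, y_Δ) k^(-Δ)`, with `Δ` the first index where `x` and `y` differ -/
noncomputable def D {A : Type} [MetricSpace A] (k : ℕ) (x y : ℕ → A) : ℝ :=
  dist (x (firstDiff x y)) (y (firstDiff x y)) * ((k : ℝ) ^ firstDiff x y)⁻¹

/-- the largest size of a set `E ⊆ X` with `D_T(x, y) > ε` for all distinct `x, y ∈ E` -/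
noncomputable def sep {A : Type} [MetricSpace A] (k : ℕ) (X : Set (ℕ → A)) (ε : ℝ) (T : ℕ) : ℕ :=
  sSup {n | ∃ E : Finset (ℕ → A), ↑E ⊆ X ∧ E.card = n ∧
    ∀ x ∈ E, ∀ y ∈ E, x ≠ y → ∃ t < T, ε < D k (shift t x) (shift t y)}

theorem rank_bound {A F ι : Type} [Field F] [Fintype ι] (a b : A → ι → F) (T : ℕ)
    (E : Finset (ℕ → A)) (h1 : ∀ x ∈ E, ∀ t < T, ∑ i, a (x t) i * b (x t) i ≠ 0)
    (h2 : ∀ x ∈ E, ∀ y ∈ E, x ≠ y → ∃ t < T, ∑ i, a (x t) i * b (y t) i = 0) :
    E.card ≤ Fintype.card ι ^ T := by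
  classical
  let P : Matrix E (Fin T → ι) F := fun x φ => ∏ t : Fin T, a (x.1 t) (φ t)
  let Q : Matrix (Fin T → ι) E F := fun φ y => ∏ t : Fin T, b (y.1 t) (φ t)
  have h3 : ∀ x y, (P * Q) x y = ∏ t : Fin T, ∑ i, a (x.1 t) i * b (y.1 t) i := by
    intro x y
    simp only [Matrix.mul_apply, P, Q, ← Finset.prod_mul_distrib]
    rw [Finset.prod_univ_sum, Fintype.piFinset_univ]
  have h4 : P * Q = Matrix.diagonal fun x => (P * Q) x x := by
    ext x y
    by_cases e : x = y
    · rw [e, Matrix.diagonal_apply_eq]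
    · obtain ⟨t, ht, h⟩ := h2 x x.2 y y.2 fun h => e (Subtype.ext h)
      rw [Matrix.diagonal_apply_ne _ e, h3]
      exact Finset.prod_eq_zero (Finset.mem_univ ⟨t, ht⟩) h
  have h5 : (P * Q).rank = E.card := by
    rw [h4, Matrix.rank_diagonal, Fintype.card_subtype, Finset.filter_true_of_mem fun x _ => by
      rw [h3]; exact Finset.prod_ne_zero_iff.2 fun t _ => h1 x x.2 t t.2]
    simp
  rw [← h5]
  refine (Matrix.rank_mul_le_left P Q).trans ((Matrix.rank_le_card_width P).trans ?_)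
  simp

abbrev V : Type := Fin 3 → Fin 100

theorem card_V : Fintype.card V = 1000000 := by
  rw [Fintype.card_fun, Fintype.card_fin, Fintype.card_fin]
  norm_num

def agree (v w : V) : ℕ := (Finset.univ.filter fun j => v j = w j).card

theorem agree_self (v : V) : agree v v = 3 := by simp [agree]

theorem agree_comm (v w : V) : agree v w = agree w v := by simp only [agree, eq_comm]

theorem agree_lt {v w : V} (h : v ≠ w) : agree v w < 3 := by
  obtain ⟨j, hj⟩ := Function.ne_iff.1 h
  exact (Finset.card_lt_card (Finset.filter_ssubset.2 ⟨j, Finset.mem_univ _, hj⟩)).trans_eq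
    (by simp)

def A : Type := Option (Bool × V)

instance : Fintype A := inferInstanceAs (Fintype (Option (Bool × V)))

def Dis : A → A → Prop
  | some (false, v), some (false, w) => Even (agree v w)
  | some (true, v), some (true, w) => agree v w = 1
  | _, _ => False

theorem Dis.symm {p q : A} (h : Dis p q) : Dis q p := by
  rcases p with _ | ⟨_ | _, v⟩ <;> rcases q with _ | ⟨_ | _, w⟩ <;>
    first | exact h | (simp only [Dis] at h ⊢; rwa [agree_comm])

theorem Dis.ne {p q : A} (h : Dis p q) : p ≠ q := by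
  rintro rfl
  rcases p with _ | ⟨_ | _, v⟩
  · exact h
  all_goals (simp only [Dis, agree_self] at h; revert h; decide)

open Classical in
noncomputable instance : MetricSpace A where
  dist p q := if p = q then 0 else if Dis p q then 2 else 1
  dist_self p := if_pos rfl
  dist_comm p q := by
    by_cases e : p = q
    · rw [e]
    · rw [if_neg e, if_neg (Ne.symm e)]
      exact if_congr ⟨Dis.symm, Dis.symm⟩ rfl rfl
  dist_triangle p q r := by
    by_cases e : p = q
    · simp [e]
    by_cases e' : q = r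
    · simp [e']
    rw [if_neg e, if_neg e']
    split_ifs <;> norm_num
  eq_of_dist_eq_zero {p q} h := by
    by_contra e
    rw [if_neg e] at h
    split_ifs at h <;> norm_num at h

open Classical in
theorem dist_def (p q : A) : dist p q = if p = q then 0 else if Dis p q then 2 else 1 := rfl

theorem dist_le (p q : A) : dist p q ≤ 2 := by rw [dist_def]; split_ifs <;> norm_num

theorem le_dist {p q : A} (h : p ≠ q) : 1 ≤ dist p q := by
  rw [dist_def, if_neg h]; split_ifs <;> norm_num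

theorem first_eq {x y : ℕ → A} {n : ℕ} (h : ∀ i < n, x i = y i) (h' : x n ≠ y n) :
    firstDiff x y = n := by
  have hne : x ≠ y := fun e => h' (e ▸ rfl)
  exact le_antisymm (not_lt.1 fun h1 => h' (apply_eq_of_lt_firstDiff h1))
    (not_lt.1 fun h1 => apply_firstDiff_ne hne (h _ h1))

theorem D_nonneg (x y : ℕ → A) : 0 ≤ D 2 x y := by unfold D; positivity

theorem D_tri (x y z : ℕ → A) : D 2 x z ≤ D 2 x y + D 2 y z := by
  rcases eq_or_ne x y with rfl | hxy
  · linarith [D_nonneg x x]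
  rcases eq_or_ne y z with rfl | hyz
  · linarith [D_nonneg y y]
  have h1 := apply_firstDiff_ne hxy
  have h2 := apply_firstDiff_ne hyz
  rcases lt_trichotomy (firstDiff x y) (firstDiff y z) with h | h | h
  · have e := apply_eq_of_lt_firstDiff h
    have : firstDiff x z = firstDiff x y := first_eq (fun i hi =>
      (apply_eq_of_lt_firstDiff hi).trans (apply_eq_of_lt_firstDiff (hi.trans h))) (e ▸ h1)
    have : D 2 x z = D 2 x y := by rw [D, D, this, e]
    linarith [D_nonneg y z]
  · rcases eq_or_ne x z with rfl | hxz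
    · simp only [D, dist_self, zero_mul]; positivity
    have h3 : firstDiff x y ≤ firstDiff x z := by
      simpa [h] using min_firstDiff_le x y z hxz
    have h4 : (((2 : ℕ) : ℝ) ^ firstDiff x z)⁻¹ ≤ (((2 : ℕ) : ℝ) ^ firstDiff x y)⁻¹ := by
      gcongr; norm_num
    rw [D, D, D, ← h, ← add_mul]
    rw [← h] at h2
    have h5 := dist_le (x (firstDiff x z)) (z (firstDiff x z))
    exact mul_le_mul (by linarith [le_dist h1, le_dist h2]) h4 (by positivity) (by positivity)
  · have e := apply_eq_of_lt_firstDiff h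
    have : firstDiff x z = firstDiff y z := first_eq (fun i hi =>
      (apply_eq_of_lt_firstDiff (hi.trans h)).trans (apply_eq_of_lt_firstDiff hi)) (e ▸ h2)
    have : D 2 x z = D 2 y z := by rw [D, D, this, e]
    linarith [D_nonneg x y]

theorem lt_D {x y : ℕ → A} : 3 / 2 < D 2 x y ↔ Dis (x 0) (y 0) := by
  refine ⟨fun h => ?_, fun h => ?_⟩
  · rcases Nat.eq_zero_or_pos (firstDiff x y) with e | e
    · rw [D, e, dist_def] at h
      split_ifs at h with h1 h2
      exacts [by norm_num at h, h2, by norm_num at h]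
    · have h1 : (((2 : ℕ) : ℝ) ^ firstDiff x y)⁻¹ ≤ (((2 : ℕ) : ℝ) ^ 1)⁻¹ := by
        gcongr; exacts [by norm_num, e]
      have := mul_le_mul (dist_le (x (firstDiff x y)) (y (firstDiff x y))) h1 (by positivity)
        (by positivity)
      rw [D] at h
      norm_num at this h
      linarith
  · rw [D, first_eq (fun _ hi => absurd hi (Nat.not_lt_zero _)) h.ne, dist_def, if_neg h.ne,
      if_pos h]
    norm_num

def z (k : ℕ) (u : ℕ → V) (n : ℕ) : A :=
  if n < 3 * 21 ^ k then some (false, u n) else if n < 4 * 21 ^ k then none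
  else if n < 7 * 21 ^ k then some (true, u (n - 4 * 21 ^ k)) else none

def X : Set (ℕ → A) := {x | ∀ N, ∃ k u s, ∀ i < N, x i = z k u (s + i)}

theorem closed_X : IsClosed X := by
  refine isOpen_compl_iff.1 (isOpen_iff_forall_mem_open.2 fun x hx => ?_)
  obtain ⟨N, hN⟩ := not_forall.1 hx
  refine ⟨cylinder x N, fun y hy hy' => hN ?_, isOpen_cylinder _ x N, self_mem_cylinder _ _⟩
  obtain ⟨k, u, s, h⟩ := hy' N
  exact ⟨k, u, s, fun i hi => (mem_cylinder_iff.1 hy i hi).symm.trans (h i hi)⟩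

def vec {F : Type} [Field F] (c : F) : A → Option (Fin 3 × Fin 100) → F
  | none, i => if i = none then 1 else 0
  | some _, none => c
  | some (_, v), some (j, r) => if v j = r then 1 else 0

theorem vec_none {F : Type} [Field F] (c c' : F) : ∑ i, vec c none i * vec c' none i = 1 := by
  simp [vec]

theorem vec_some {F : Type} [Field F] (c c' : F) (b b' : Bool) (v w : V) :
    ∑ i, vec c (some (b, v)) i * vec c' (some (b', w)) i = c * c' + agree v w := by
  simp only [Fintype.sum_option, Fintype.sum_prod_type, vec, agree, Finset.card_filter]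
  simp [eq_comm]

theorem card_le {T n : ℕ} {E : Finset (ℕ → A)}
    (h : ∀ x ∈ E, ∀ y ∈ E, x ≠ y → ∃ t < T, Dis (x t) (y t))
    (h' : ∀ x ∈ E, ∀ t < T, n ≤ t → x t = none) : E.card ≤ 301 ^ (3 * n) := by
  classical
  refine (Finset.card_le_card_of_injOn (t := Finset.univ) (fun x (i : Fin n) => x i)
    (fun _ _ => Finset.mem_coe.2 (Finset.mem_univ _)) fun x hx y hy e => ?_).trans ?_
  · by_contra hne
    obtain ⟨t, ht, h1⟩ := h x hx y hy hne
    rcases lt_or_ge t n with h2 | h2
    · exact h1.ne (congrFun e ⟨t, h2⟩)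
    · exact h1.ne ((h' x hx t ht h2).trans (h' y hy t ht h2).symm)
  · have : Fintype.card A = 2000001 := by
      refine (Fintype.card_congr (α := A) (β := Option (Bool × V)) (Equiv.refl _)).trans ?_
      rw [Fintype.card_option, Fintype.card_prod, card_V, Fintype.card_bool]
    rw [Finset.card_univ, Fintype.card_fun, this, Fintype.card_fin, pow_mul]
    exact Nat.pow_le_pow_left (by norm_num) _

theorem upper (K : ℕ) {E : Finset (ℕ → A)} (hE : ↑E ⊆ X)
    (h : ∀ x ∈ E, ∀ y ∈ E, x ≠ y → ∃ t < 21 ^ (K + 1), Dis (x t) (y t)) :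
    E.card ≤ 320 ^ 21 ^ (K + 1) := by
  classical
  let p : Bool → (ℕ → A) → Prop := fun b x => ∀ t < 21 ^ (K + 1), ∀ v, x t ≠ some (b, v)
  have h1 : (E.filter (p true)).card ≤ 301 ^ 21 ^ (K + 1) := by
    refine (rank_bound (F := ZMod 2) (vec 0) (vec 0) (21 ^ (K + 1)) _ (fun x hx t ht => ?_)
      fun x hx y hy e => ?_).trans_eq (by simp)
    · rcases x t with _ | ⟨b, v⟩
      · rw [vec_none]; exact one_ne_zero
      · rw [vec_some, agree_self]; decide
    · rw [Finset.mem_filter] at hx hy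
      obtain ⟨t, ht, h2⟩ := h x hx.1 y hy.1 e
      refine ⟨t, ht, ?_⟩
      have h3 := hx.2 t ht
      revert h2 h3
      rcases x t with _ | ⟨_ | _, v⟩ <;> rcases y t with _ | ⟨_ | _, w⟩ <;> intro h2 h3 <;>
        first | exact h2.elim | exact absurd rfl (h3 _) | skip
      rw [vec_some, zero_mul, zero_add]
      exact (ZMod.natCast_eq_zero_iff_even).2 h2
  have h2 : (E.filter (p false)).card ≤ 301 ^ 21 ^ (K + 1) := by
    refine (rank_bound (F := ℚ) (vec 1) (vec (-1)) (21 ^ (K + 1)) _ (fun x hx t ht => ?_)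
      fun x hx y hy e => ?_).trans_eq (by simp)
    · rcases x t with _ | ⟨b, v⟩
      · rw [vec_none]; exact one_ne_zero
      · rw [vec_some, agree_self]; norm_num
    · rw [Finset.mem_filter] at hx hy
      obtain ⟨t, ht, h2⟩ := h x hx.1 y hy.1 e
      refine ⟨t, ht, ?_⟩
      have h3 := hx.2 t ht
      revert h2 h3
      rcases x t with _ | ⟨_ | _, v⟩ <;> rcases y t with _ | ⟨_ | _, w⟩ <;> intro h2 h3 <;>
        first | exact h2.elim | exact absurd rfl (h3 _) | skip
      rw [vec_some, show agree v w = 1 from h2]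
      norm_num
  have h3 : (E.filter fun x => ¬ p true x ∧ ¬ p false x).card ≤ 301 ^ (3 * (7 * 21 ^ K)) := by
    refine card_le (fun x hx y hy => h x (Finset.mem_filter.1 hx).1 y (Finset.mem_filter.1 hy).1)
      fun x hx t ht h4 => ?_
    obtain ⟨h5, h6, h7⟩ := Finset.mem_filter.1 hx
    simp only [p, not_forall, not_not] at h6 h7
    obtain ⟨t1, a1, v1, b1⟩ := h6
    obtain ⟨t2, a2, v2, b2⟩ := h7
    obtain ⟨k, u, s, h8⟩ := hE h5 (21 ^ (K + 1))
    rw [h8 _ a1, z] at b1
    rw [h8 _ a2, z] at b2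
    have c1 : 4 * 21 ^ k ≤ s + t1 := by
      split_ifs at b1 with d1 d2 d3
      · cases b1
      · omega
    have c2 : s + t2 < 3 * 21 ^ k := by
      split_ifs at b2 with d1 d2 d3
      · exact d1
      · cases b2
    have c3 : k < K + 1 := (Nat.pow_lt_pow_iff_right (by norm_num : 1 < 21)).1 (by omega)
    have c4 : 21 ^ k ≤ 21 ^ K := Nat.pow_le_pow_right (by norm_num) (by omega)
    rw [h8 _ ht, z, if_neg (by omega), if_neg (by omega), if_neg (by omega)]
  have h4 : E ⊆ E.filter (p true) ∪ E.filter (p false) ∪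
      E.filter fun x => ¬ p true x ∧ ¬ p false x := fun x hx => by
    simp only [Finset.mem_union, Finset.mem_filter]
    tauto
  have h5 := (Finset.card_le_card h4).trans ((Finset.card_union_le _ _).trans
    (Nat.add_le_add_right (Finset.card_union_le _ _) _))
  rw [show 3 * (7 * 21 ^ K) = 21 ^ (K + 1) by ring] at h3
  have h6 : 3 * 301 ^ 21 ^ (K + 1) ≤ 320 ^ 21 ^ (K + 1) := by
    rw [pow_succ', pow_mul, pow_mul]
    calc 3 * (301 ^ 21) ^ 21 ^ K ≤ 3 ^ 21 ^ K * (301 ^ 21) ^ 21 ^ K :=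
          Nat.mul_le_mul_right _ (Nat.le_self_pow (by positivity) 3)
      _ ≤ _ := by rw [← mul_pow]; exact Nat.pow_le_pow_left (by norm_num) _
  omega

theorem lower (k : ℕ) : 370 ^ (7 * 21 ^ k) ≤ sep 2 X (3 / 2) (7 * 21 ^ k) := by
  classical
  let e : (Fin (3 * 21 ^ k) → V) → ℕ → A := fun u =>
    z k fun n => if h : n < 3 * 21 ^ k then u ⟨n, h⟩ else 0
  have h1 : ∀ u u', u ≠ u' → ∃ t < 7 * 21 ^ k, Dis (e u t) (e u' t) := by
    intro u u' h
    obtain ⟨i, hi⟩ := Function.ne_iff.1 h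
    have h2 := agree_lt hi
    have h3 := i.2
    by_cases h4 : agree (u i) (u' i) = 1
    · refine ⟨4 * 21 ^ k + i, by omega, ?_⟩
      simp only [e, z, if_neg (show ¬ 4 * 21 ^ k + (i : ℕ) < 3 * 21 ^ k by omega),
        if_neg (show ¬ 4 * 21 ^ k + (i : ℕ) < 4 * 21 ^ k by omega),
        if_pos (show 4 * 21 ^ k + (i : ℕ) < 7 * 21 ^ k by omega), Nat.add_sub_cancel_left, dif_pos h3]
      exact h4
    · refine ⟨i, by omega, ?_⟩
      simp only [e, z, if_pos h3, dif_pos h3]
      exact Nat.even_iff.2 (by change agree (u i) (u' i) % 2 = 0; omega)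
  have hinj : Function.Injective e := fun u u' h => by
    by_contra hne
    obtain ⟨t, -, h2⟩ := h1 u u' hne
    exact h2.ne (congrFun h t)
  refine le_trans ?_ (le_csSup ⟨301 ^ (3 * (7 * 21 ^ k)), ?_⟩ ⟨Finset.univ.image e, ?_, rfl, ?_⟩)
  · rw [Finset.card_image_of_injective _ hinj, Finset.card_univ, Fintype.card_fun,
      Fintype.card_fin, card_V, pow_mul, pow_mul]
    exact Nat.pow_le_pow_left (by norm_num) _
  · rintro _ ⟨E, -, rfl, h⟩
    exact card_le (fun x hx y hy hne => (h x hx y hy hne).imp fun t ht =>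
      ⟨ht.1, by simpa [shift] using lt_D.1 ht.2⟩) fun _ _ t ht h => absurd ht h.not_gt
  · intro x hx
    obtain ⟨u, -, rfl⟩ := Finset.mem_image.1 hx
    exact fun N => ⟨k, _, 0, fun i _ => by rw [zero_add]⟩
  · intro x hx y hy hne
    obtain ⟨u, -, rfl⟩ := Finset.mem_image.1 hx
    obtain ⟨u', -, rfl⟩ := Finset.mem_image.1 hy
    exact (h1 u u' fun h => hne (h ▸ rfl)).imp fun t ht =>
      ⟨ht.1, lt_D.2 (by simpa [shift] using ht.2)⟩

theorem result : ∃ (A : Type) (_ : Fintype A) (_ : MetricSpace A) (X : Set (ℕ → A)) (k : ℕ) (ε : ℝ),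
    X.Nonempty ∧ IsClosed X ∧ MapsTo (shift 1) X X ∧ 1 < k ∧
    (∀ x ∈ X, ∀ y ∈ X, 0 ≤ D k x y ∧ (D k x y = 0 ↔ x = y) ∧ D k x y = D k y x ∧
      ∀ z ∈ X, D k x z ≤ D k x y + D k y z) ∧ 0 < ε ∧
    liminf (fun T : ℕ => ((Real.log (sep k X ε T) / T : ℝ) : EReal)) atTop <
      limsup (fun T : ℕ => ((Real.log (sep k X ε T) / T : ℝ) : EReal)) atTop := by
  refine ⟨A, inferInstance, inferInstance, X, 2, 3 / 2,
    ⟨z 0 0, fun N => ⟨0, 0, 0, fun i _ => by rw [zero_add]⟩⟩, closed_X, fun x hx N => ?_,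
    one_lt_two, fun x _ y _ => ⟨D_nonneg x y, ⟨fun h => ?_, fun h => by simp [h, D]⟩,
      by rw [D, D, firstDiff_comm, dist_comm], fun z _ => D_tri x y z⟩, by norm_num, ?_⟩
  · obtain ⟨k, u, s, h⟩ := hx (N + 1)
    exact ⟨k, u, s + 1, fun i hi => (h (i + 1) (by omega)).trans (by congr 1; omega)⟩
  · by_contra hne
    exact (mul_pos (dist_pos.2 (apply_firstDiff_ne hne)) (by positivity)).ne' h
  have hN : ∀ N : ℕ, N ≤ 21 ^ N := fun N => (Nat.lt_pow_self (by norm_num)).le
  refine lt_of_le_of_lt (liminf_le_of_frequently_le' (x := ((Real.log 320 : ℝ) : EReal))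
    (frequently_atTop.2 fun N => ⟨21 ^ (N + 1), (Nat.le_succ N).trans (hN _), ?_⟩))
    (lt_of_lt_of_le (EReal.coe_lt_coe_iff.2 (Real.log_lt_log (by norm_num)
      (by norm_num : (320 : ℝ) < 370))) (le_limsup_of_frequently_le'
      (frequently_atTop.2 fun N => ⟨7 * 21 ^ N, by linarith [hN N], ?_⟩)))
  · have h1 : sep 2 X (3 / 2) (21 ^ (N + 1)) ≤ 320 ^ 21 ^ (N + 1) := by
      refine csSup_le' ?_
      rintro _ ⟨E, hE, rfl, h⟩
      exact upper N hE fun x hx y hy hne => (h x hx y hy hne).imp fun t ht =>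
        ⟨ht.1, by simpa [shift] using lt_D.1 ht.2⟩
    refine EReal.coe_le_coe_iff.2 ((div_le_iff₀ (by positivity)).2 ?_)
    rw [mul_comm, ← Real.log_pow]
    rcases Nat.eq_zero_or_pos (sep 2 X (3 / 2) (21 ^ (N + 1))) with h | h
    · rw [h, Nat.cast_zero, Real.log_zero]
      exact Real.log_nonneg (one_le_pow₀ (by norm_num))
    · exact Real.log_le_log (by exact_mod_cast h) (by exact_mod_cast h1)
  · refine EReal.coe_le_coe_iff.2 ((le_div_iff₀ (by positivity)).2 ?_)
    rw [mul_comm, ← Real.log_pow]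
    exact Real.log_le_log (by positivity) (by exact_mod_cast lower N)

end Pool.Agent.Results.MP_6f7bab_an.Yes
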